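import Pool.Agent.WAP.StmtsL

set_option autoImplicit false

/-!
# WAP (MP_ff4683_nt), row TOR: the torsion bound for all fields, by base change to the algebraic
closure
-/

namespace Pool.Agent.WAP.H50

open Classical Polynomial WeierstrassCurve.Affine Pool.Agent.WAP

theorem tor (htob : TobStmt) : TorStmt := by
  intro F _ _ d h2 hd a ha A hA
  let K := AlgebraicClosure F
  let σ : F →+* K := algebraMap F K
  let alg : Algebra GaussianInt K := (σ.comp (algebraMap GaussianInt F)).toAlgebra
  have hinj : Function.Injective (Bc σ d) := Trf_injective σ 1 one_ne_zero (by ring)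
  have h2' : (2 : K) ≠ 0 := by
    intro h
    apply h2
    apply σ.injective
    rw [map_ofNat, map_zero]
    exact h
  have hd' : σ d ≠ 0 := by
    intro h
    exact hd (σ.injective (by rw [h, map_zero]))
  have key := @htob K _ _ alg (σ d) h2' hd' a ha (A.image (Bc σ d)) (by
    intro P hP
    obtain ⟨Q, hQ, rfl⟩ := Finset.mem_image.1 hP
    have h := Tr_gsm σ 1 one_ne_zero (show σ d = 1 ^ 2 * σ d by ring)
      (algebraMap GaussianInt F) a Q
    have h3 : gsm (algebraMap GaussianInt F) a Q = 0 := hA Q hQ
    rw [h3, map_zero] at h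
    exact h.symm)
  rwa [Finset.card_image_of_injective _ hinj] at key

end Pool.Agent.WAP.H50
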